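import Mathlib
import Pool.Agent.V1118.RcfIvt

/-!
# A dense subfield of the real closure of `ℚ(t)` in which `ℚ` is relatively algebraically closed
-/

open Polynomial

namespace Pool.Agent.Results.MP_9bb08e_al.DenseSubfield

section bounds

variable {K : Type*} [Field K] [LinearOrder K] [IsStrictOrderedRing K]

lemma rat_lt {t : K} (ht : ∀ n : ℕ, (n : K) < t) (c : ℚ) : (c : K) < t := by
  obtain ⟨n, hn⟩ := exists_nat_ge c
  refine lt_of_le_of_lt ?_ (ht n)
  exact_mod_cast hn

lemma lower {t : K} (ht : ∀ n : ℕ, (n : K) < t) (n : ℕ) : ∀ p : ℚ[X], p ≠ 0 → p.natDegree = n →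
    ∃ ε : ℚ, 0 < ε ∧ (ε : K) * t ^ n ≤ |aeval t p| := by
  have ht0 : 0 < t := by simpa using ht 0
  have ht1 : 1 < t := by simpa using ht 1
  induction n with
  | zero =>
    intro p hp hdeg
    obtain ⟨c, rfl⟩ : ∃ c, p = C c := ⟨_, Polynomial.eq_C_of_natDegree_eq_zero hdeg⟩
    have hc : c ≠ 0 := by
      rintro rfl
      simp at hp
    refine ⟨|c|, abs_pos.2 hc, ?_⟩
    rw [pow_zero, mul_one, aeval_C]
    simp
  | succ n ih =>
    intro p hp hdeg
    have h1 := Polynomial.divX_mul_X_add p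
    have hdiv : p.divX ≠ 0 := by
      intro h0
      rw [h0, zero_mul, zero_add] at h1
      rw [← h1] at hdeg
      simp at hdeg
    obtain ⟨ε, hε, h2⟩ := ih p.divX hdiv (by
      rw [Polynomial.natDegree_divX_eq_natDegree_tsub_one, hdeg]
      rfl)
    refine ⟨ε / 2, by positivity, ?_⟩
    have h3 : aeval t p = aeval t p.divX * t + ((p.coeff 0 : ℚ) : K) := by
      conv_lhs => rw [← h1]
      simp
    have h4 : |aeval t p.divX * t| - |((p.coeff 0 : ℚ) : K)| ≤ |aeval t p| := by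
      rw [h3]
      have := abs_sub_abs_le_abs_sub (aeval t p.divX * t) (-((p.coeff 0 : ℚ) : K))
      rwa [sub_neg_eq_add, abs_neg] at this
    rw [abs_mul, abs_of_pos ht0] at h4
    have h5 : (ε : K) * t ^ n * t ≤ |aeval t p.divX| * t := mul_le_mul_of_nonneg_right h2 ht0.le
    have h6 : |((p.coeff 0 : ℚ) : K)| ≤ (ε / 2 : ℚ) * t ^ (n + 1) := by
      have h7 := rat_lt ht (|p.coeff 0| / (ε / 2))
      have h8 : t ≤ t ^ (n + 1) := le_self_pow₀ ht1.le (Nat.succ_ne_zero n)
      have hε2 : (0 : K) < ((ε / 2 : ℚ) : K) := by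
        have : 0 < ε / 2 := by positivity
        exact_mod_cast this
      have h9 : ((|p.coeff 0| : ℚ) : K) = ((ε / 2 : ℚ) : K) * ((|p.coeff 0| / (ε / 2) : ℚ) : K) := by
        rw [← Rat.cast_mul]
        congr 1
        field_simp
      calc |((p.coeff 0 : ℚ) : K)| = ((|p.coeff 0| : ℚ) : K) := by simp
        _ = ((ε / 2 : ℚ) : K) * ((|p.coeff 0| / (ε / 2) : ℚ) : K) := h9
        _ ≤ (ε / 2 : ℚ) * t ^ (n + 1) := mul_le_mul_of_nonneg_left (h7.le.trans h8) hε2.le
    have h10 : (ε : K) * t ^ n * t = 2 * (((ε / 2 : ℚ) : K) * t ^ (n + 1)) := by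
      push_cast
      ring
    linarith

/-- The elements bounded by a power of `t`. -/
def VV (t : K) (ht : ∀ n : ℕ, (n : K) < t) : ValuationSubring K where
  carrier := {y | ∃ N : ℕ, |y| ≤ t ^ N}
  mul_mem' := by
    rintro a b ⟨M, hM⟩ ⟨N, hN⟩
    refine ⟨M + N, ?_⟩
    rw [abs_mul, pow_add]
    exact mul_le_mul hM hN (abs_nonneg _) ((abs_nonneg _).trans hM)
  one_mem' := ⟨0, by simp⟩
  add_mem' := by
    rintro a b ⟨M, hM⟩ ⟨N, hN⟩
    have ht1 : 1 < t := by simpa using ht 1
    have ht2 : 2 < t := by simpa using ht 2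
    refine ⟨max M N + 1, ?_⟩
    have h1 : |a| ≤ t ^ max M N := hM.trans (pow_le_pow_right₀ ht1.le (le_max_left _ _))
    have h2 : |b| ≤ t ^ max M N := hN.trans (pow_le_pow_right₀ ht1.le (le_max_right _ _))
    have h3 : 0 ≤ t ^ max M N := (abs_nonneg _).trans h1
    calc |a + b| ≤ |a| + |b| := abs_add_le a b
      _ ≤ t ^ max M N * 2 := by linarith
      _ ≤ t ^ max M N * t := mul_le_mul_of_nonneg_left ht2.le h3
      _ = t ^ (max M N + 1) := (pow_succ _ _).symm
  zero_mem' := ⟨0, by simp⟩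
  neg_mem' := by
    rintro a ⟨M, hM⟩
    exact ⟨M, by rwa [abs_neg]⟩
  mem_or_inv_mem' := by
    intro x
    rcases le_total |x| 1 with h | h
    · exact Or.inl ⟨0, by simpa using h⟩
    · refine Or.inr ⟨0, ?_⟩
      rw [abs_inv, pow_zero]
      exact inv_le_one_of_one_le₀ h

lemma mem_VV {t : K} {ht : ∀ n : ℕ, (n : K) < t} {y : K} :
    y ∈ VV t ht ↔ ∃ N : ℕ, |y| ≤ t ^ N := Iff.rfl

lemma rat_mem {t : K} (ht : ∀ n : ℕ, (n : K) < t) (c : ℚ) : (c : K) ∈ VV t ht := by
  refine ⟨1, ?_⟩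
  rw [pow_one]
  have := rat_lt ht |c|
  calc |(c : K)| = ((|c| : ℚ) : K) := by simp
    _ ≤ t := this.le

lemma t_mem {t : K} (ht : ∀ n : ℕ, (n : K) < t) : t ∈ VV t ht := by
  refine ⟨1, ?_⟩
  have ht0 : 0 < t := by simpa using ht 0
  rw [pow_one, abs_of_pos ht0]

lemma poly_mem {t : K} (ht : ∀ n : ℕ, (n : K) < t) (p : ℚ[X]) : aeval t p ∈ VV t ht := by
  induction p using Polynomial.induction_on' with
  | add p q hp hq =>
    rw [map_add]
    exact add_mem hp hq
  | monomial n a =>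
    rw [aeval_monomial]
    exact mul_mem (by simpa using rat_mem ht a) (pow_mem (t_mem ht) n)

lemma poly_inv_mem {t : K} (ht : ∀ n : ℕ, (n : K) < t) (p : ℚ[X]) (hp : p ≠ 0) :
    (aeval t p)⁻¹ ∈ VV t ht := by
  have ht1 : 1 < t := by simpa using ht 1
  obtain ⟨ε, hε, h⟩ := lower ht _ p hp rfl
  have hε' : (0 : K) < (ε : K) := by exact_mod_cast hε
  have h1 : (ε : K) ≤ |aeval t p| := by
    refine le_trans ?_ h
    have h2 : 1 ≤ t ^ p.natDegree := one_le_pow₀ ht1.le
    nlinarith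
  refine ⟨1, ?_⟩
  rw [abs_inv, pow_one]
  calc |aeval t p|⁻¹ ≤ (ε : K)⁻¹ := inv_anti₀ hε' h1
    _ = ((ε⁻¹ : ℚ) : K) := by simp
    _ ≤ t := (rat_lt ht _).le

variable [Algebra (RatFunc ℚ) K]

lemma algebraMap_poly (p : ℚ[X]) :
    algebraMap (RatFunc ℚ) K (algebraMap ℚ[X] (RatFunc ℚ) p) =
      aeval (algebraMap (RatFunc ℚ) K RatFunc.X) p := by
  have h : ((algebraMap (RatFunc ℚ) K).comp (algebraMap ℚ[X] (RatFunc ℚ))) =
      (aeval (R := ℚ) (algebraMap (RatFunc ℚ) K RatFunc.X)).toRingHom := by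
    refine Polynomial.ringHom_ext ?_ ?_
    · intro a
      simp
    · simp
  exact congrArg (fun f : ℚ[X] →+* K => f p) h

lemma ratFunc_mem (ht : ∀ n : ℕ, (n : K) < algebraMap (RatFunc ℚ) K RatFunc.X) (r : RatFunc ℚ) :
    algebraMap (RatFunc ℚ) K r ∈ VV (algebraMap (RatFunc ℚ) K RatFunc.X) ht := by
  have h := RatFunc.num_div_denom r
  rw [← h, map_div₀, algebraMap_poly, algebraMap_poly, div_eq_mul_inv]
  exact mul_mem (poly_mem ht _) (poly_inv_mem ht _ (RatFunc.denom_ne_zero r))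

/-- In an algebraic extension of `ℚ(t)` every element is bounded by a power of `t`. -/
lemma bounded [Algebra.IsAlgebraic (RatFunc ℚ) K]
    (ht : ∀ n : ℕ, (n : K) < algebraMap (RatFunc ℚ) K RatFunc.X) (y : K) :
    ∃ N : ℕ, |y| ≤ (algebraMap (RatFunc ℚ) K RatFunc.X) ^ N := by
  obtain ⟨V, hV⟩ : ∃ V, V = VV (algebraMap (RatFunc ℚ) K RatFunc.X) ht := ⟨_, rfl⟩
  have hy : (algebraMap (RatFunc ℚ) K).IsIntegralElem y := Algebra.IsIntegral.isIntegral y
  let g : RatFunc ℚ →+* V := (algebraMap (RatFunc ℚ) K).codRestrict V.toSubring (by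
    intro r
    rw [hV]
    exact ratFunc_mem ht r)
  have hg : (algebraMap V K).comp g = algebraMap (RatFunc ℚ) K := by
    ext r
    rfl
  rw [← hg] at hy
  have hy2 : IsIntegral V y := RingHom.IsIntegralElem.of_comp hy
  obtain ⟨z, hz⟩ := IsIntegrallyClosed.isIntegral_iff.1 hy2
  have h1 : y ∈ V := by
    rw [← hz]
    exact z.2
  rw [hV] at h1
  exact h1

end bounds

section series

open PowerSeries in
/-- A power series that is algebraic over `ℚ` is constant. -/
lemma ps_const (s : ℚ⟦X⟧) (hs : IsIntegral ℚ s) :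
    s = algebraMap ℚ ℚ⟦X⟧ (PowerSeries.constantCoeff s) := by
  obtain ⟨w, hw⟩ : ∃ w, w = s - algebraMap ℚ ℚ⟦X⟧ (PowerSeries.constantCoeff s) := ⟨_, rfl⟩
  have hw0 : PowerSeries.constantCoeff w = 0 := by
    rw [hw, map_sub]
    simp
  have hwi : IsIntegral ℚ w := by
    rw [hw]
    exact hs.sub isIntegral_algebraMap
  have h1 : (minpoly ℚ w).coeff 0 = 0 := by
    have h2 := minpoly.aeval ℚ w
    have h3 := congrArg (PowerSeries.constantCoeff (R := ℚ)) h2
    rw [map_zero, Polynomial.aeval_def, Polynomial.hom_eval₂, hw0, Polynomial.eval₂_at_zero] at h3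
    simpa [PowerSeries.algebraMap_apply] using h3
  have h2 : w = 0 := (minpoly.coeff_zero_eq_zero hwi).1 h1
  rw [hw, sub_eq_zero] at h2
  exact h2

open PowerSeries in
/-- A Laurent series that is algebraic over `ℚ` is constant. -/
lemma ls_const (y : LaurentSeries ℚ) (f : ℚ →+* LaurentSeries ℚ) (hy : f.IsIntegralElem y) :
    ∃ c : ℚ, y = f c := by
  have hf : f = (algebraMap ℚ⟦X⟧ (LaurentSeries ℚ)).comp (algebraMap ℚ ℚ⟦X⟧) :=
    Subsingleton.elim _ _
  have hinj : Function.Injective (algebraMap ℚ⟦X⟧ (LaurentSeries ℚ)) := IsFractionRing.injective _ _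
  rw [hf] at hy
  have h1 : IsIntegral ℚ⟦X⟧ y := RingHom.IsIntegralElem.of_comp hy
  obtain ⟨s, hs⟩ := IsIntegrallyClosed.isIntegral_iff.1 h1
  have h2 : IsIntegral ℚ s := by
    obtain ⟨p, hp, hp2⟩ := hy
    refine ⟨p, hp, hinj ?_⟩
    rw [map_zero, Polynomial.hom_eval₂, hs]
    exact hp2
  refine ⟨PowerSeries.constantCoeff s, ?_⟩
  rw [← hs, hf]
  conv_lhs => rw [ps_const s h2]
  rfl

/-- The polynomial `∏_{i < n} (X - i)`. -/
noncomputable def QQ (R : Type*) [CommRing R] (n : ℕ) : R[X] :=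
  ∏ i ∈ Finset.range n, (X - C (i : R))

lemma QQ_monic (R : Type*) [CommRing R] [Nontrivial R] (n : ℕ) : (QQ R n).Monic :=
  monic_prod_of_monic _ _ fun _ _ => monic_X_sub_C _

lemma QQ_natDegree (R : Type*) [CommRing R] [Nontrivial R] (n : ℕ) : (QQ R n).natDegree = n := by
  unfold QQ
  rw [natDegree_prod_of_monic _ _ fun _ _ => monic_X_sub_C _,
    Finset.sum_congr rfl fun _ _ => natDegree_X_sub_C _]
  simp

lemma QQ_map {R S : Type*} [CommRing R] [CommRing S] (f : R →+* S) (n : ℕ) :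
    (QQ R n).map f = QQ S n := by
  unfold QQ
  rw [Polynomial.map_prod]
  refine Finset.prod_congr rfl fun i _ => ?_
  simp

lemma QQ_eval {R : Type*} [CommRing R] {n i : ℕ} (hi : i < n) : (QQ R n).eval (i : R) = 0 := by
  unfold QQ
  rw [eval_prod]
  exact Finset.prod_eq_zero (Finset.mem_range.2 hi) (by simp)

lemma QQ_derivative {R : Type*} [CommRing R] {n i : ℕ} (hi : i < n) :
    (derivative (QQ R n)).eval (i : R) =
      ((∏ j ∈ (Finset.range n).erase i, ((i : ℤ) - j) : ℤ) : R) := by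
  have h1 : QQ R n = (X - C (i : R)) * ∏ j ∈ (Finset.range n).erase i, (X - C (j : R)) := by
    unfold QQ
    exact (Finset.mul_prod_erase (Finset.range n) (fun j : ℕ => X - C (j : R))
      (Finset.mem_range.2 hi)).symm
  rw [h1, derivative_mul]
  simp only [eval_add, eval_mul, derivative_sub, derivative_X, derivative_C, sub_zero,
    one_mul, eval_sub, eval_X, eval_C, sub_self, zero_mul, add_zero, eval_prod]
  push_cast
  rfl

open PowerSeries in
/-- Monic polynomials over `ℚ⟦X⟧` near `∏ (X - i)` split over the Laurent series. -/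
lemma splits_near (n : ℕ) (D : ℚ⟦X⟧[X]) (hD : D.degree < n) (w : ℚ⟦X⟧)
    (hw : w ∈ Ideal.span {(PowerSeries.X : ℚ⟦X⟧)}) :
    ((QQ ℚ⟦X⟧ n + Polynomial.C w * D).map (algebraMap ℚ⟦X⟧ (LaurentSeries ℚ))).Splits := by
  classical
  obtain ⟨I, hI⟩ : ∃ I : Ideal ℚ⟦X⟧, I = Ideal.span {PowerSeries.X} := ⟨_, rfl⟩
  obtain ⟨f, hf⟩ : ∃ f, f = QQ ℚ⟦X⟧ n + Polynomial.C w * D := ⟨_, rfl⟩
  have hQd : (QQ ℚ⟦X⟧ n).degree = n := by
    rw [Polynomial.degree_eq_natDegree (QQ_monic _ n).ne_zero, QQ_natDegree]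
  have hlt : (Polynomial.C w * D).degree < (QQ ℚ⟦X⟧ n).degree := by
    rw [hQd]
    refine lt_of_le_of_lt ?_ hD
    refine (Polynomial.degree_mul_le _ _).trans ?_
    calc (Polynomial.C w).degree + D.degree ≤ 0 + D.degree := by
          gcongr
          exact Polynomial.degree_C_le
      _ = D.degree := zero_add _
  have hmon : f.Monic := by
    rw [hf]
    exact (QQ_monic _ n).add_of_left hlt
  have hdeg : f.natDegree = n := by
    refine Polynomial.natDegree_eq_of_degree_eq_some ?_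
    rw [hf, Polynomial.degree_add_eq_left_of_degree_lt hlt, hQd]
  have hadic : IsAdicComplete I ℚ⟦X⟧ := by
    rw [hI]
    infer_instance
  have hens : HenselianRing ℚ⟦X⟧ I := inferInstance
  have hroot : ∀ i < n, ∃ r : ℚ⟦X⟧, f.IsRoot r ∧ r - (i : ℚ⟦X⟧) ∈ I := by
    intro i hi
    refine HenselianRing.is_henselian f hmon (i : ℚ⟦X⟧) ?_ ?_
    · rw [hf, Polynomial.eval_add, QQ_eval hi, zero_add, Polynomial.eval_mul, Polynomial.eval_C]
      rw [← hI] at hw
      exact I.mul_mem_right _ hw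
    · have h1 : (Polynomial.derivative f).eval (i : ℚ⟦X⟧) =
          ((∏ j ∈ (Finset.range n).erase i, ((i : ℤ) - j) : ℤ) : ℚ⟦X⟧) +
            w * (Polynomial.derivative D).eval (i : ℚ⟦X⟧) := by
        rw [hf, Polynomial.derivative_add, Polynomial.eval_add, QQ_derivative hi,
          Polynomial.derivative_C_mul, Polynomial.eval_mul, Polynomial.eval_C]
      rw [h1, map_add, Ideal.Quotient.eq_zero_iff_mem.2 (I.mul_mem_right _ (by rw [hI]; exact hw)),
        add_zero]
      refine IsUnit.map _ ?_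
      rw [PowerSeries.isUnit_iff_constantCoeff, map_intCast]
      have h2 : (∏ j ∈ (Finset.range n).erase i, ((i : ℤ) - j) : ℤ) ≠ 0 := by
        rw [Finset.prod_ne_zero_iff]
        intro j hj
        rw [Finset.mem_erase] at hj
        intro h3
        apply hj.1
        omega
      rw [isUnit_iff_ne_zero]
      exact_mod_cast h2
  choose! r hr1 hr2 using hroot
  have hinj : ∀ i < n, ∀ j < n, r i = r j → i = j := by
    intro i hi j hj hij
    have h1 := hr2 i hi
    have h2 := hr2 j hj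
    rw [hI, Ideal.mem_span_singleton, PowerSeries.X_dvd_iff, map_sub, map_natCast, sub_eq_zero] at h1 h2
    rw [hij, h2] at h1
    exact_mod_cast h1.symm
  rw [← hf]
  have hAinj : Function.Injective (algebraMap ℚ⟦X⟧ (LaurentSeries ℚ)) := IsFractionRing.injective _ _
  have hgm : (f.map (algebraMap ℚ⟦X⟧ (LaurentSeries ℚ))).Monic := hmon.map _
  have hgd : (f.map (algebraMap ℚ⟦X⟧ (LaurentSeries ℚ))).natDegree = n := by
    rw [hmon.natDegree_map, hdeg]
  rw [Polynomial.splits_iff_card_roots]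
  apply le_antisymm (Polynomial.card_roots' _)
  rw [hgd]
  have hsub : (Finset.range n).image (fun i => algebraMap ℚ⟦X⟧ (LaurentSeries ℚ) (r i)) ⊆
      (f.map (algebraMap ℚ⟦X⟧ (LaurentSeries ℚ))).roots.toFinset := by
    intro z hz
    rw [Finset.mem_image] at hz
    obtain ⟨i, hi, rfl⟩ := hz
    rw [Multiset.mem_toFinset, Polynomial.mem_roots hgm.ne_zero]
    exact (hr1 i (Finset.mem_range.1 hi)).map
  calc n = (Finset.range n).card := (Finset.card_range n).symm
    _ = ((Finset.range n).image (fun i => algebraMap ℚ⟦X⟧ (LaurentSeries ℚ) (r i))).card := by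
        rw [Finset.card_image_of_injOn]
        intro i hi j hj hij
        exact hinj i (Finset.mem_range.1 hi) j (Finset.mem_range.1 hj) (hAinj hij)
    _ ≤ _ := Finset.card_le_card hsub
    _ ≤ _ := Multiset.toFinset_card_le _

/-- The polynomial over the Laurent series field obtained by the weak approximation splits. -/
lemma splits_approx (n : ℕ) (P : (LaurentSeries ℚ)[X]) (hP : P.Monic) (hn : P.natDegree = n) :
    ∃ M : ℕ, ∀ N > M, ∀ u : LaurentSeries ℚ,
      u = (algebraMap (PowerSeries ℚ) (LaurentSeries ℚ) PowerSeries.X) ^ N →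
      (QQ (LaurentSeries ℚ) n + C (u / (1 + u)) * (P - QQ (LaurentSeries ℚ) n)).Splits := by
  obtain ⟨b, ⟨M, hM⟩, hb⟩ := IsLocalization.integerNormalization_spec
    (M := Submonoid.powers (PowerSeries.X : PowerSeries ℚ)) (P - QQ (LaurentSeries ℚ) n)
  have hsupp := IsLocalization.integerNormalization_support
    (M := Submonoid.powers (PowerSeries.X : PowerSeries ℚ)) (P - QQ (LaurentSeries ℚ) n)
  obtain ⟨D, hD⟩ : ∃ D, D = IsLocalization.integerNormalization
    (Submonoid.powers (PowerSeries.X : PowerSeries ℚ)) (P - QQ (LaurentSeries ℚ) n) := ⟨_, rfl⟩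
  rw [← hD] at hb hsupp
  refine ⟨M, fun N hN u hu => ?_⟩
  obtain ⟨k, rfl⟩ : ∃ k, N = M + (k + 1) := ⟨N - M - 1, by omega⟩
  have hdegP : (P - QQ (LaurentSeries ℚ) n).degree < n := by
    have h1 : P.degree = (QQ (LaurentSeries ℚ) n).degree := by
      rw [degree_eq_natDegree hP.ne_zero, hn, degree_eq_natDegree (QQ_monic _ n).ne_zero,
        QQ_natDegree]
    have h2 := degree_sub_lt_left h1 hP.ne_zero (by rw [hP.leadingCoeff, (QQ_monic _ n).leadingCoeff])
    rwa [degree_eq_natDegree hP.ne_zero, hn] at h2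
  have hdegD : D.degree < n := by
    rw [degree_lt_iff_coeff_zero] at hdegP ⊢
    intro m hm
    by_contra hne
    exact (mem_support_iff.1 (hsupp (mem_support_iff.2 hne))) (hdegP m hm)
  obtain ⟨v, hv⟩ : ∃ v : PowerSeries ℚ, v = 1 + PowerSeries.X ^ (M + (k + 1)) := ⟨_, rfl⟩
  have hvc : PowerSeries.constantCoeff v ≠ 0 := by
    rw [hv]
    simp
  have hvi : v * v⁻¹ = 1 := PowerSeries.mul_inv_cancel v hvc
  have hsp := splits_near n D hdegD (PowerSeries.X ^ (k + 1) * v⁻¹) (by
    rw [Ideal.mem_span_singleton, pow_succ']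
    exact ⟨PowerSeries.X ^ k * v⁻¹, by ring⟩)
  have huX : u = algebraMap (PowerSeries ℚ) (LaurentSeries ℚ) (PowerSeries.X ^ (M + (k + 1))) := by
    rw [map_pow, hu]
  have h1u : (1 + u) = algebraMap (PowerSeries ℚ) (LaurentSeries ℚ) v := by
    rw [hv, map_add, map_one, ← huX]
  have h1u0 : 1 + u ≠ 0 := by
    rw [h1u]
    intro h0
    have h2 : v = 0 := (IsFractionRing.injective (PowerSeries ℚ) (LaurentSeries ℚ))
      (h0.trans (map_zero _).symm)
    apply hvc
    rw [h2, map_zero]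
  have hinv : algebraMap (PowerSeries ℚ) (LaurentSeries ℚ) v⁻¹ = (1 + u)⁻¹ := by
    rw [eq_comm, inv_eq_iff_eq_inv]
    refine eq_inv_of_mul_eq_one_left ?_
    rw [h1u, ← map_mul, hvi, map_one]
  have heq : QQ (LaurentSeries ℚ) n + C (u / (1 + u)) * (P - QQ (LaurentSeries ℚ) n) =
      map (algebraMap (PowerSeries ℚ) (LaurentSeries ℚ))
        (QQ (PowerSeries ℚ) n + C (PowerSeries.X ^ (k + 1) * v⁻¹) * D) := by
    rw [Polynomial.map_add, QQ_map, Polynomial.map_mul, Polynomial.map_C, hb, ← hM]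
    congr 1
    rw [map_mul, hinv]
    have h3 : (PowerSeries.X ^ M : PowerSeries ℚ) • (P - QQ (LaurentSeries ℚ) n) =
        C (algebraMap (PowerSeries ℚ) (LaurentSeries ℚ) (PowerSeries.X ^ M)) *
          (P - QQ (LaurentSeries ℚ) n) := by
      rw [Algebra.smul_def]
      rfl
    simp only
    rw [h3, ← mul_assoc, ← C_mul]
    congr 2
    rw [div_eq_mul_inv, huX, pow_add, map_mul]
    ring
  rw [heq]
  exact hsp

end series

/-- The embedding of `ℚ(t)` into the Laurent series that takes `t` to the variable. -/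
noncomputable def phi0 : RatFunc ℚ →+* LaurentSeries ℚ :=
  RatFunc.liftRingHom
    ((algebraMap (PowerSeries ℚ) (LaurentSeries ℚ)).comp Polynomial.coeToPowerSeries.ringHom) (by
      intro p hp
      rw [Submonoid.mem_comap]
      refine mem_nonZeroDivisors_of_ne_zero ?_
      intro h0
      have h1 : Polynomial.coeToPowerSeries.ringHom p = (0 : PowerSeries ℚ) :=
        (IsFractionRing.injective (PowerSeries ℚ) (LaurentSeries ℚ)) (h0.trans (map_zero _).symm)
      have h2 : p = 0 := by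
        rw [Polynomial.coeToPowerSeries.ringHom_apply] at h1
        exact Polynomial.coe_eq_zero_iff.1 h1
      exact nonZeroDivisors.ne_zero hp h2)

lemma phi0_X : phi0 RatFunc.X = algebraMap (PowerSeries ℚ) (LaurentSeries ℚ) PowerSeries.X := by
  unfold phi0
  rw [← RatFunc.algebraMap_X, RatFunc.liftRingHom_algebraMap]
  simp [Polynomial.coeToPowerSeries.ringHom_apply]

/-- A polynomial with a simple root changes sign around it. -/
lemma sign_change {K : Type*} [Field K] [LinearOrder K] [IsStrictOrderedRing K] (P : K[X])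
    {a b c : K} (hac : a < c) (hcb : c < b) (hc : P.eval c = 0) (hc' : (derivative P).eval c ≠ 0) :
    ∃ a' b', a < a' ∧ a' < b' ∧ b' < b ∧ P.eval a' * P.eval b' < 0 := by
  let _ : TopologicalSpace K := Preorder.topology K
  have _ : OrderTopology K := ⟨rfl⟩
  obtain ⟨R, hR⟩ : (X - C c) ∣ P := dvd_iff_isRoot.2 hc
  have hRc : R.eval c ≠ 0 := by
    rw [hR, derivative_mul] at hc'
    simpa using hc'
  have hcont : Continuous (fun z => R.eval z * R.eval c) := by
    have := R.continuous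
    fun_prop
  have hopen : IsOpen {z | 0 < R.eval z * R.eval c} := isOpen_lt continuous_const hcont
  have hmem : c ∈ {z | 0 < R.eval z * R.eval c} ∩ Set.Ioo a b :=
    ⟨mul_self_pos.2 hRc, hac, hcb⟩
  obtain ⟨l, r, hlr, hsub⟩ := mem_nhds_iff_exists_Ioo_subset.1
    ((hopen.inter isOpen_Ioo).mem_nhds hmem)
  obtain ⟨a', ha1, ha2⟩ := exists_between hlr.1
  obtain ⟨b', hb1, hb2⟩ := exists_between hlr.2
  have ha' := hsub ⟨ha1, ha2.trans hlr.2⟩
  have hb' := hsub ⟨hlr.1.trans hb1, hb2⟩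
  refine ⟨a', b', ha'.2.1, ha2.trans hb1, hb'.2.2, ?_⟩
  rw [hR]
  simp only [eval_mul, eval_sub, eval_X, eval_C]
  have h1 : 0 < R.eval a' * R.eval c := ha'.1
  have h2 : 0 < R.eval b' * R.eval c := hb'.1
  have h3 : 0 < R.eval a' * R.eval b' := by
    have h4 : 0 < (R.eval a' * R.eval b') * (R.eval c) ^ 2 := by
      calc 0 < (R.eval a' * R.eval c) * (R.eval b' * R.eval c) := mul_pos h1 h2
        _ = _ := by ring
    by_contra hcon
    have h5 := mul_nonpos_of_nonpos_of_nonneg (not_lt.1 hcon) (sq_nonneg (R.eval c))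
    exact absurd h4 (not_lt.2 h5)
  have h4 : (a' - c) * (b' - c) < 0 := mul_neg_of_neg_of_pos (sub_neg.2 ha2) (sub_pos.2 hb1)
  calc (a' - c) * eval a' R * ((b' - c) * eval b' R)
      = (a' - c) * (b' - c) * (R.eval a' * R.eval b') := by ring
    _ < 0 := mul_neg_of_neg_of_pos h4 h3

/-- The sign of the approximating polynomial. -/
lemma approx_sign {K : Type*} [Field K] [LinearOrder K] [IsStrictOrderedRing K] {p q u : K}
    (hp : p ≠ 0) (hu : |q / p| < u) : 0 < (q + u / (1 + u) * (p - q)) * p := by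
  have hu0 : 0 < u := lt_of_le_of_lt (abs_nonneg _) hu
  have h1 : (q + u / (1 + u) * (p - q)) * p = (q / p + u) / (1 + u) * p ^ 2 := by
    field_simp
    ring
  rw [h1]
  have h2 := (abs_lt.1 hu).1
  have h3 : 0 < q / p + u := by linarith
  positivity

lemma exists_new_root {K : Type*} [Field K] [LinearOrder K] [IsStrictOrderedRing K]
    [IsRealClosed K] [Algebra (RatFunc ℚ) K] [Algebra.IsAlgebraic (RatFunc ℚ) K]
    [Algebra (RatFunc ℚ) (LaurentSeries ℚ)]
    (hphi : algebraMap (RatFunc ℚ) (LaurentSeries ℚ) RatFunc.X =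
      algebraMap (PowerSeries ℚ) (LaurentSeries ℚ) PowerSeries.X)
    (ht : ∀ n : ℕ, (n : K) < algebraMap (RatFunc ℚ) K RatFunc.X)
    (F : IntermediateField (RatFunc ℚ) K) (e : F →ₐ[RatFunc ℚ] LaurentSeries ℚ) {a b : K}
    (hab : a < b) : ∃ c : K, a < c ∧ c < b ∧ ((minpoly F c).map e.toRingHom).Splits := by
  obtain ⟨t, htdef⟩ : ∃ t, t = algebraMap (RatFunc ℚ) K RatFunc.X := ⟨_, rfl⟩
  have ht1 : 1 < t := by
    rw [htdef]
    simpa using ht 1
  obtain ⟨c, hac, hcb⟩ := exists_between hab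
  have hint : IsIntegral F c :=
    (Algebra.IsIntegral.isIntegral (R := RatFunc ℚ) c).tower_top
  obtain ⟨P, hP⟩ : ∃ P, P = minpoly F c := ⟨_, rfl⟩
  have hPm : P.Monic := by
    rw [hP]
    exact minpoly.monic hint
  have hsep : P.Separable := by
    rw [hP]
    exact (minpoly.irreducible hint).separable
  have h0 : aeval c P = 0 := by
    rw [hP]
    exact minpoly.aeval F c
  have h0' : aeval c (derivative P) ≠ 0 := hsep.aeval_derivative_ne_zero h0
  obtain ⟨a', b', haa, hab', hbb, hsign⟩ := sign_change (P.map (algebraMap F K)) hac hcb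
    (by rw [eval_map_algebraMap]; exact h0)
    (by rw [derivative_map, eval_map_algebraMap]; exact h0')
  have hPa : (P.map (algebraMap F K)).eval a' ≠ 0 := by
    intro h
    rw [h, zero_mul] at hsign
    exact lt_irrefl _ hsign
  have hPb : (P.map (algebraMap F K)).eval b' ≠ 0 := by
    intro h
    rw [h, mul_zero] at hsign
    exact lt_irrefl _ hsign
  obtain ⟨M, hM⟩ := splits_approx P.natDegree (P.map e.toRingHom) (hPm.map _)
    (hPm.natDegree_map _)
  obtain ⟨N1, hN1⟩ := bounded ht ((QQ K P.natDegree).eval a' / (P.map (algebraMap F K)).eval a')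
  obtain ⟨N2, hN2⟩ := bounded ht ((QQ K P.natDegree).eval b' / (P.map (algebraMap F K)).eval b')
  rw [← htdef] at hN1 hN2
  obtain ⟨N, hN⟩ : ∃ N, N = max M (max N1 N2) + 1 := ⟨_, rfl⟩
  have hNM : N > M := by
    rw [hN]
    exact Nat.lt_succ_of_le (le_max_left _ _)
  have hlt1 : t ^ N1 < t ^ N := pow_lt_pow_right₀ ht1 (by
    rw [hN]
    exact Nat.lt_succ_of_le ((le_max_left _ _).trans (le_max_right _ _)))
  have hlt2 : t ^ N2 < t ^ N := pow_lt_pow_right₀ ht1 (by
    rw [hN]
    exact Nat.lt_succ_of_le ((le_max_right _ _).trans (le_max_right _ _)))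
  obtain ⟨u, hu⟩ : ∃ u : F, u = (algebraMap (RatFunc ℚ) F RatFunc.X) ^ N := ⟨_, rfl⟩
  have huK : algebraMap F K u = t ^ N := by
    rw [hu, map_pow, ← IsScalarTower.algebraMap_apply, htdef]
  have hue : e u = (algebraMap (PowerSeries ℚ) (LaurentSeries ℚ) PowerSeries.X) ^ N := by
    rw [hu, map_pow, AlgHom.commutes, hphi]
  obtain ⟨G, hG⟩ : ∃ G : F[X], G = QQ F P.natDegree + C (u / (1 + u)) * (P - QQ F P.natDegree) :=
    ⟨_, rfl⟩
  have hGK : ∀ z, (G.map (algebraMap F K)).eval z = (QQ K P.natDegree).eval z +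
      t ^ N / (1 + t ^ N) * ((P.map (algebraMap F K)).eval z - (QQ K P.natDegree).eval z) := by
    intro z
    rw [hG]
    simp only [Polynomial.map_add, Polynomial.map_mul, Polynomial.map_sub, Polynomial.map_C,
      QQ_map, eval_add, eval_mul, eval_sub, eval_C, map_div₀, map_add, map_one, huK]
  have hsa := approx_sign hPa (hN1.trans_lt hlt1)
  have hsb := approx_sign hPb (hN2.trans_lt hlt2)
  rw [← hGK] at hsa hsb
  have hsG : (G.map (algebraMap F K)).eval a' * (G.map (algebraMap F K)).eval b' < 0 := by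
    by_contra hcon
    have h1 := mul_pos hsa hsb
    have h2 : eval a' (map (algebraMap F K) G) * eval a' (map (algebraMap F K) P) *
        (eval b' (map (algebraMap F K) G) * eval b' (map (algebraMap F K) P)) =
        (eval a' (map (algebraMap F K) G) * eval b' (map (algebraMap F K) G)) *
        (eval a' (map (algebraMap F K) P) * eval b' (map (algebraMap F K) P)) := by ring
    rw [h2] at h1
    have h3 := mul_nonpos_of_nonneg_of_nonpos (not_lt.1 hcon) hsign.le
    exact absurd h1 (not_lt.2 h3)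
  obtain ⟨r, hr1, hr2, hr3⟩ := Pool.Agent.V1118.Rcf.ivt (G.map (algebraMap F K)) hab' hsG
  refine ⟨r, haa.trans hr1, hr2.trans hbb, ?_⟩
  have hGe : (G.map e.toRingHom) = QQ (LaurentSeries ℚ) P.natDegree +
      C (e u / (1 + e u)) * (P.map e.toRingHom - QQ (LaurentSeries ℚ) P.natDegree) := by
    rw [hG]
    simp only [Polynomial.map_add, Polynomial.map_mul, Polynomial.map_sub, Polynomial.map_C,
      QQ_map, map_div₀, map_add, map_one]
    rfl
  have hsplit : (G.map e.toRingHom).Splits := by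
    rw [hGe]
    exact hM N hNM (e u) hue
  have hG0 : G.map e.toRingHom ≠ 0 := by
    rw [Ne, Polynomial.map_eq_zero]
    intro h
    rw [h] at hsG
    simp at hsG
  refine hsplit.of_dvd hG0 (Polynomial.map_dvd _ (minpoly.dvd F r ?_))
  rw [← eval_map_algebraMap]
  exact hr3

/-- **A dense subfield of the real closure of `ℚ(t)`, `t` infinitely large, in which `ℚ` is
relatively algebraically closed.** -/
theorem result (K : Type*) [Field K] [LinearOrder K] [IsStrictOrderedRing K] [IsRealClosed K]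
    [Algebra (RatFunc ℚ) K] [Algebra.IsAlgebraic (RatFunc ℚ) K]
    (ht : ∀ n : ℕ, (n : K) < algebraMap (RatFunc ℚ) K RatFunc.X) :
    ∃ F : Subfield K, (∀ a b : K, a < b → ∃ f ∈ F, a < f ∧ f < b) ∧
      ∀ x ∈ F, IsAlgebraic ℚ x → ∃ q : ℚ, x = (q : K) := by
  let _ : Algebra (RatFunc ℚ) (LaurentSeries ℚ) := phi0.toAlgebra
  have hphi : algebraMap (RatFunc ℚ) (LaurentSeries ℚ) RatFunc.X =
      algebraMap (PowerSeries ℚ) (LaurentSeries ℚ) PowerSeries.X := phi0_X
  obtain ⟨x, hx⟩ : ∃ x : IntermediateField.Lifts (RatFunc ℚ) K (LaurentSeries ℚ), IsMax x :=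
    zorn_le fun c hc => by
      obtain ⟨ub, hub⟩ := IntermediateField.Lifts.exists_upper_bound c hc
      exact ⟨ub, hub⟩
  refine ⟨x.carrier.toSubfield, ?_, ?_⟩
  · intro a b hab
    obtain ⟨c, hac, hcb, hsp⟩ := exists_new_root hphi ht x.carrier x.emb hab
    have hint : IsIntegral x.carrier c :=
      (Algebra.IsIntegral.isIntegral (R := RatFunc ℚ) c).tower_top
    obtain ⟨y, hxy, hy⟩ := IntermediateField.Lifts.exists_lift_of_splits' x hint hsp
    exact ⟨c, (hx hxy).1 hy, hac, hcb⟩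
  · intro y hy hy2
    have h1 : IsIntegral ℚ y := hy2.isIntegral
    obtain ⟨p, hp, hp2⟩ := h1
    have h3 : ((x.emb : x.carrier →+* LaurentSeries ℚ).comp
        (algebraMap ℚ x.carrier)).IsIntegralElem (x.emb ⟨y, hy⟩) := by
      refine ⟨p, hp, ?_⟩
      have h4 : eval₂ (algebraMap ℚ x.carrier) (⟨y, hy⟩ : x.carrier) p = 0 := by
        apply (algebraMap x.carrier K).injective
        rw [map_zero, Polynomial.hom_eval₂]
        have h5 : (algebraMap x.carrier K).comp (algebraMap ℚ x.carrier) = algebraMap ℚ K :=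
          Subsingleton.elim _ _
        rw [h5]
        exact hp2
      have h6 := congrArg (x.emb : x.carrier →+* LaurentSeries ℚ) h4
      rw [map_zero, Polynomial.hom_eval₂] at h6
      exact h6
    obtain ⟨q, hq⟩ := ls_const _ _ h3
    refine ⟨q, ?_⟩
    have h7 : (⟨y, hy⟩ : x.carrier) = algebraMap ℚ x.carrier q := x.emb.injective hq
    have h8 := congrArg (algebraMap x.carrier K) h7
    have h9 : (algebraMap x.carrier K) (algebraMap ℚ x.carrier q) = (q : K) := by
      rw [← RingHom.comp_apply]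
      simp
    rw [h9] at h8
    exact h8

end Pool.Agent.Results.MP_9bb08e_al.DenseSubfield
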